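import Pool.Agent.H73.EM.WinB

/-!
# MP_028722: exactly `m` primes: the counting

`G` = the set of the `n' ≤ x` with exactly `m` primes in both windows. Every `n` of the set `A` from `master` gives at least `(δ/2) L` pairs `(n, s)`, `n + s ∈ G`, `s ≤ λ L`; every `n'` is obtained from at most `λ L + 1` pairs.
-/

open Finset Filter

namespace H73EM

/-- integers in a half-open real interval -/
theorem ints {u v : ℝ} (hu : 0 ≤ u) : v - u - 1 ≤ (((range ⌈v⌉₊).filter (fun s : ℕ => u ≤ (s : ℝ) ∧ (s : ℝ) < v)).card : ℝ) := by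
  have h1 : (Ico ⌈u⌉₊ ⌈v⌉₊) ⊆ (range ⌈v⌉₊).filter (fun s : ℕ => u ≤ (s : ℝ) ∧ (s : ℝ) < v) := by
    intro s hs
    rw [mem_Ico] at hs
    rw [mem_filter, mem_range]
    exact ⟨hs.2, Nat.ceil_le.1 hs.1, Nat.lt_ceil.1 hs.2⟩
  have h2 := Finset.card_le_card h1
  rw [Nat.card_Ico] at h2
  have h3 : (⌈u⌉₊ : ℝ) < u + 1 := Nat.ceil_lt_add_one hu
  have h4 : v ≤ (⌈v⌉₊ : ℝ) := Nat.le_ceil v
  have h5 : ((⌈v⌉₊ : ℕ) : ℝ) - (⌈u⌉₊ : ℕ) ≤ ((⌈v⌉₊ - ⌈u⌉₊ : ℕ) : ℝ) := by
    rw [sub_le_iff_le_add]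
    exact_mod_cast (by omega : ⌈v⌉₊ ≤ ⌈v⌉₊ - ⌈u⌉₊ + ⌈u⌉₊)
  have h6 : ((⌈v⌉₊ - ⌈u⌉₊ : ℕ) : ℝ) ≤ (((range ⌈v⌉₊).filter (fun s : ℕ => u ≤ (s : ℝ) ∧ (s : ℝ) < v)).card : ℝ) := by
    exact_mod_cast h2
  linarith

/-- counting by shifts -/
theorem shifts {A G : Finset ℕ} {S : ℕ → Finset ℕ} {R a : ℝ} (hR : 0 ≤ R) (hS : ∀ n ∈ A, a ≤ ((S n).card : ℝ))
    (hSR : ∀ n ∈ A, ∀ s ∈ S n, (s : ℝ) ≤ R) (hSG : ∀ n ∈ A, ∀ s ∈ S n, n + s ∈ G) :
    a * (A.card : ℝ) ≤ (R + 1) * (G.card : ℝ) := by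
  have h1 : (A.sigma S).card ≤ (⌊R⌋₊ + 1) * G.card := by
    rw [mul_comm, ← Finset.card_range (⌊R⌋₊ + 1), ← Finset.card_product]
    refine Finset.card_le_card_of_injOn (fun p => (p.1 + p.2, p.2)) ?_ ?_
    · intro p hp
      rw [mem_coe, mem_sigma] at hp
      rw [mem_coe, mem_product]
      refine ⟨hSG _ hp.1 _ hp.2, ?_⟩
      rw [mem_range]
      have := Nat.le_floor (hSR _ hp.1 _ hp.2)
      show p.2 < ⌊R⌋₊ + 1
      omega
    · rintro ⟨a1, a2⟩ _ ⟨b1, b2⟩ _ hab
      simp only [Prod.mk.injEq] at hab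
      obtain ⟨h1, h2⟩ := hab
      subst h2
      have : a1 = b1 := by omega
      rw [this]
  have h2 : a * (A.card : ℝ) ≤ ((A.sigma S).card : ℝ) := by
    rw [card_sigma]
    push_cast
    calc a * (A.card : ℝ) = ∑ n ∈ A, a := by rw [sum_const, nsmul_eq_mul, mul_comm]
      _ ≤ ∑ n ∈ A, ((S n).card : ℝ) := sum_le_sum hS
  have h3 : ((A.sigma S).card : ℝ) ≤ ((⌊R⌋₊ : ℝ) + 1) * (G.card : ℝ) := by exact_mod_cast h1
  have h4 : ((⌊R⌋₊ : ℝ) + 1) * (G.card : ℝ) ≤ (R + 1) * (G.card : ℝ) :=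
    mul_le_mul_of_nonneg_right (by linarith [Nat.floor_le hR]) (Nat.cast_nonneg _)
  linarith

theorem exactly_m (m : ℕ) (lam Lam : ℝ) (hlam : 0 < lam) (hLam : lam ≤ Lam) : ∃ c : ℝ, 0 < c ∧ ∃ x0 : ℝ, ∀ x : ℝ, x0 ≤ x →
    c * x ≤ (((Icc 1 ⌊x⌋₊).filter (fun n => cnt lam n = m ∧ cnt Lam n = m)).card : ℝ) := by
  obtain ⟨K, hmK, hM⟩ := H91CH.master m
  have hK : 0 < K := by omega
  have hKr : (0 : ℝ) < K := by exact_mod_cast hK
  obtain ⟨de, hde⟩ : ∃ de : ℝ, de = lam / (4 * K) := ⟨_, rfl⟩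
  have hde0 : 0 < de := by rw [hde]; positivity
  have hdeK : 2 * K * de = lam / 2 := by
    rw [hde]
    field_simp
    ring
  have hdelam : de ≤ lam / 4 := by
    have h1 : (1 : ℝ) ≤ K := by exact_mod_cast hK
    have h2 : 2 * 1 * de ≤ 2 * K * de := mul_le_mul_of_nonneg_right (by linarith) hde0.le
    linarith
  have hi : ∀ i : Fin K, ((i : ℕ) : ℝ) + 1 ≤ K := by
    intro i
    exact_mod_cast i.2
  obtain ⟨c, x0, hc, hx0⟩ := hM (lam + Lam + 1) (fun i => (2 * (i : ℕ) + 1) * de) (fun i => (2 * (i : ℕ) + 2) * de) (by linarith)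
    (fun i => by positivity) (fun i => mul_lt_mul_of_pos_right (by linarith) hde0) (fun i => by
      have h1 : (2 * ((i : ℕ) : ℝ) + 2) * de ≤ 2 * K * de := mul_le_mul_of_nonneg_right (by linarith [hi i]) hde0.le
      linarith) (fun i j hij => by
      rcases lt_or_gt_of_ne (fun h => hij (Fin.ext h) : (i : ℕ) ≠ (j : ℕ)) with h | h
      · left
        have h1 : ((i : ℕ) : ℝ) + 1 ≤ (j : ℕ) := by exact_mod_cast h
        exact mul_le_mul_of_nonneg_right (by linarith) hde0.le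
      · right
        have h1 : ((j : ℕ) : ℝ) + 1 ≤ (i : ℕ) := by exact_mod_cast h
        exact mul_le_mul_of_nonneg_right (by linarith) hde0.le)
  have hev1 : ∀ᶠ x : ℝ in atTop, (4 / de + 1 / lam + 4) ≤ Real.log x := Real.tendsto_log_atTop.eventually_ge_atTop _
  have hev2 : ∀ᶠ x : ℝ in atTop, lam * Real.log x ≤ 1 / 4 * x := by
    have h1 := Real.isLittleO_log_id_atTop.bound (show (0 : ℝ) < 1 / (4 * lam) by positivity)
    filter_upwards [h1, eventually_ge_atTop (1 : ℝ)] with x hx hx1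
    rw [Real.norm_of_nonneg (Real.log_nonneg hx1), id, Real.norm_of_nonneg (by linarith)] at hx
    have h2 := mul_le_mul_of_nonneg_left hx hlam.le
    have h3 : lam * (1 / (4 * lam) * x) = 1 / 4 * x := by
      field_simp
    linarith
  obtain ⟨x1, hx1⟩ := eventually_atTop.1 (hev1.and (hev2.and (eventually_ge_atTop (100 : ℝ))))
  refine ⟨c * de / (4 * lam), by positivity, max x0 x1, fun x hx => ?_⟩
  obtain ⟨g1, g2, g3⟩ := hx1 x (le_trans (le_max_right _ _) hx)
  obtain ⟨A, hA1, hA2⟩ := hx0 x (le_trans (le_max_left _ _) hx)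
  obtain ⟨L, hL⟩ : ∃ L : ℝ, L = Real.log x := ⟨_, rfl⟩
  rw [← hL] at g1 g2 hA2
  have hdiv : 0 < 4 / de := by positivity
  have hdiv2 : 0 < 1 / lam := by positivity
  have hL2 : 4 ≤ L := by linarith
  have hLpos : 0 < L := by linarith
  have hdeL : 4 ≤ de * L := by
    have : 4 / de ≤ L := by linarith
    rw [div_le_iff₀ hde0] at this
    linarith
  have hlamL : 1 ≤ lam * L := by
    have : 1 / lam ≤ L := by linarith
    rw [div_le_iff₀ hlam] at this
    linarith
  have hdL : de * L ≤ lam / 4 * L := mul_le_mul_of_nonneg_right hdelam hLpos.le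
  have key : ∀ n ∈ A, ∃ u : ℝ, 0 ≤ u ∧ u ≤ lam / 2 * L ∧
      ∀ s : ℕ, u ≤ (s : ℝ) → (s : ℝ) < u + de * L → cnt lam (n + s) = m ∧ cnt Lam (n + s) = m := by
    intro n hn
    obtain ⟨hn1, hn2, h, hh, hG⟩ := hA2 n hn
    obtain ⟨b, hb, hbm⟩ := exists_top m hG.1
    have hhi : ∀ i, (h i : ℝ) ≤ lam / 2 * L := by
      intro i
      have h1 : (2 * ((i : ℕ) : ℝ) + 2) * de ≤ 2 * K * de := mul_le_mul_of_nonneg_right (by linarith [hi i]) hde0.le
      have : ((2 * ((i : ℕ) : ℝ) + 2) * de) * L ≤ (lam / 2) * L := by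
        apply mul_le_mul_of_nonneg_right _ hLpos.le
        linarith
      linarith [(hh i).2]
    have hb' := hb
    rw [mem_filter, mem_image] at hb'
    obtain ⟨⟨j, -, hj⟩, -⟩ := hb'
    have hb2 : (b : ℝ) ≤ lam / 2 * L := by
      rw [← hj]
      exact hhi j
    have hsep : ∀ i j, h i < h j → (h i : ℝ) + de * Real.log x ≤ h j := by
      intro i j hij
      rw [← hL]
      have hi1 := hh i
      have hj1 := hh j
      have hij' : (h i : ℝ) < h j := by exact_mod_cast hij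
      have h8 : (i : ℕ) < (j : ℕ) := by
        by_contra hcon
        push Not at hcon
        rcases Nat.eq_or_lt_of_le hcon with h9 | h9
        · have : i = j := Fin.ext h9.symm
          subst this
          exact lt_irrefl _ hij
        · have h10 : ((j : ℕ) : ℝ) + 1 ≤ (i : ℕ) := by exact_mod_cast h9
          have h11 : ((2 * ((j : ℕ) : ℝ) + 2) * de) * L ≤ ((2 * ((i : ℕ) : ℝ) + 1) * de) * L := by
            apply mul_le_mul_of_nonneg_right _ hLpos.le
            exact mul_le_mul_of_nonneg_right (by linarith) hde0.le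
          linarith [hj1.2, hi1.1]
      have h10 : ((i : ℕ) : ℝ) + 1 ≤ (j : ℕ) := by exact_mod_cast h8
      have h11 : ((2 * ((i : ℕ) : ℝ) + 2) * de) * L + de * L ≤ ((2 * ((j : ℕ) : ℝ) + 1) * de) * L := by
        have h12 : (2 * ((i : ℕ) : ℝ) + 2) * de + de ≤ (2 * ((j : ℕ) : ℝ) + 1) * de := by
          have : (2 * ((i : ℕ) : ℝ) + 3) * de ≤ (2 * ((j : ℕ) : ℝ) + 1) * de := mul_le_mul_of_nonneg_right (by linarith) hde0.le
          linarith
        have := mul_le_mul_of_nonneg_right h12 hLpos.le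
        linarith
      linarith [hi1.2, hj1.1]
    refine ⟨b, Nat.cast_nonneg b, hb2, fun s hs1 hs2 => ?_⟩
    have hsl : (s : ℝ) ≤ lam * L := by
      have : 0 < lam * L := by positivity
      nlinarith
    have hns : ((n + s : ℕ) : ℝ) ≤ x := by
      push_cast
      linarith
    have hn3 : x / 2 - 1 < n := by
      have h1 := Nat.lt_floor_add_one (x / 2)
      have h2 : ((⌊x / 2⌋₊ : ℕ) : ℝ) ≤ n := by exact_mod_cast hn1
      linarith
    have hxpos : 0 < x := by linarith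
    have hlog1 : Real.log ((n + s : ℕ) : ℝ) ≤ L := by
      rw [hL]
      apply Real.log_le_log _ hns
      push_cast
      have : (0 : ℝ) ≤ s := Nat.cast_nonneg s
      linarith
    have hlog2 : L - 1 ≤ Real.log ((n + s : ℕ) : ℝ) := by
      have h1 : L - 1 = Real.log (x / Real.exp 1) := by
        rw [Real.log_div (by linarith) (Real.exp_pos 1).ne', Real.log_exp, hL]
      rw [h1]
      apply Real.log_le_log (by positivity)
      push_cast
      have h2 : x / Real.exp 1 ≤ x / 2.7 := by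
        apply div_le_div_of_nonneg_left (by linarith) (by norm_num)
        have := Real.exp_one_gt_d9
        linarith
      have : (0 : ℝ) ≤ s := Nat.cast_nonneg s
      have h3 : x / 2.7 ≤ x / 2 - 1 := by
        rw [div_le_iff₀ (by norm_num)]
        linarith
      linarith
    have hlog3 : L / 2 ≤ Real.log ((n + s : ℕ) : ℝ) := by linarith
    have hone : ∀ mu : ℝ, lam ≤ mu → mu ≤ Lam → cnt mu (n + s) = m := by
      intro mu h1 h2
      have hmu : 0 < mu := by linarith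
      have ha1 : mu * Real.log ((n + s : ℕ) : ℝ) ≤ mu * L := mul_le_mul_of_nonneg_left hlog1 hmu.le
      have ha2 : mu * (L / 2) ≤ mu * Real.log ((n + s : ℕ) : ℝ) := mul_le_mul_of_nonneg_left hlog3 hmu.le
      have ha3 : mu * L ≤ Lam * L := mul_le_mul_of_nonneg_right h2 hLpos.le
      have ha4 : lam * L ≤ mu * L := mul_le_mul_of_nonneg_right h1 hLpos.le
      refine cnt_top (La := lam + Lam + 1) (lam := lam) (de := de) (x := x) (b := b) hG (by rw [← hL]; exact hhi) hsep hb hbm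
        (by exact_mod_cast hs1) (by rw [← hL]; exact hs2) ?_ ?_ ?_
      · rw [← hL]
        nlinarith
      · rw [← hL]
        linarith
      · have : 0 ≤ mu * (L / 2) := by positivity
        linarith
    exact ⟨hone lam le_rfl hLam, hone Lam hLam le_rfl⟩
  choose! u hu0 hu1 hu2 using key
  have hcount := shifts (A := A) (G := (Icc 1 ⌊x⌋₊).filter (fun n => cnt lam n = m ∧ cnt Lam n = m))
    (S := fun n => (range ⌈u n + de * L⌉₊).filter (fun s : ℕ => u n ≤ (s : ℝ) ∧ (s : ℝ) < u n + de * L))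
    (R := lam * L) (a := de * L / 2) (by linarith) (fun n hn => by
      refine le_trans ?_ (ints (hu0 n hn))
      linarith) (fun n hn s hs => by
      rw [mem_filter] at hs
      have := hu1 n hn
      have h9 : 0 < lam * L := by positivity
      linarith [hs.2.2]) (fun n hn s hs => by
      rw [mem_filter] at hs
      rw [mem_filter, mem_Icc]
      obtain ⟨hn1, hn2, -⟩ := hA2 n hn
      refine ⟨⟨?_, ?_⟩, hu2 n hn s hs.2.1 hs.2.2⟩
      · have : 1 ≤ ⌊x / 2⌋₊ := Nat.le_floor (by push_cast; linarith)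
        omega
      · apply Nat.le_floor
        push_cast
        have h1 := hu1 n hn
        have h9 : 0 < lam * L := by positivity
        linarith [hs.2.2])
  have h1 : de * L / 2 * (c * x) ≤ de * L / 2 * (A.card : ℝ) := mul_le_mul_of_nonneg_left hA1 (by linarith)
  have h2 : (lam * L + 1) * (((Icc 1 ⌊x⌋₊).filter (fun n => cnt lam n = m ∧ cnt Lam n = m)).card : ℝ) ≤
      2 * (lam * L) * (((Icc 1 ⌊x⌋₊).filter (fun n => cnt lam n = m ∧ cnt Lam n = m)).card : ℝ) :=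
    mul_le_mul_of_nonneg_right (by linarith) (Nat.cast_nonneg _)
  have hlL : 0 < 2 * (lam * L) := by positivity
  have h4 : c * de / (4 * lam) * x * (2 * (lam * L)) = de * L / 2 * (c * x) := by
    field_simp
    ring
  have h5 : c * de / (4 * lam) * x * (2 * (lam * L)) ≤
      (((Icc 1 ⌊x⌋₊).filter (fun n => cnt lam n = m ∧ cnt Lam n = m)).card : ℝ) * (2 * (lam * L)) := by
    rw [mul_comm (((Icc 1 ⌊x⌋₊).filter (fun n => cnt lam n = m ∧ cnt Lam n = m)).card : ℝ)]
    linarith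
  exact le_of_mul_le_mul_right h5 hlL

end H73EM
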