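import Pool.Agent.H91.CH.Mst

/-!
# MP_028722: exactly `m` primes in `(n, n + λ log n]` and none in `(n + λ log n, n + Λ log n]`, for a positive proportion of `n`

From `H91CH.master`: for a positive proportion of `n` all the primes of `(n, n + La log x]` are among `n + h_i`, `h_i` in prescribed disjoint windows, and at least `m + 1` of them are prime. The windows are placed in
`(0, (1/2) λ log x]` with gaps `≥ δ log x`; let `b` be the prime offset with exactly `m` prime offsets above it. For all `s` with `b ≤ s < b + δ log x` the number `n' = n + s` has exactly `m` primes in `(n', n' + λ log n']` and no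
prime in `(n' + λ log n', n' + Λ log n']`.
-/

open Finset Filter

namespace H73EM

/-- the number of primes in `(n, n + λ log n]` -/
noncomputable def cnt (lam : ℝ) (n : ℕ) : ℕ := ((Ioc n ⌊(n : ℝ) + lam * Real.log n⌋₊).filter Nat.Prime).card

/-- an element with exactly `m` elements above it -/
theorem exists_top {P : Finset ℕ} : ∀ m : ℕ, m + 1 ≤ P.card → ∃ b ∈ P, (P.filter (fun k => b < k)).card = m := by
  induction P using Finset.strongInduction with
  | H P ih =>
    intro m hm
    have hne : P.Nonempty := by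
      rw [← Finset.card_pos]
      omega
    rcases Nat.eq_zero_or_pos m with h | h
    · subst h
      refine ⟨P.max' hne, P.max'_mem hne, ?_⟩
      rw [Finset.card_eq_zero, Finset.filter_eq_empty_iff]
      intro k hk
      exact not_lt.2 (P.le_max' k hk)
    · have hM := P.max'_mem hne
      have hsub : P.erase (P.max' hne) ⊂ P := Finset.erase_ssubset hM
      obtain ⟨b, hb, hbm⟩ := ih _ hsub (m - 1) (by
        rw [Finset.card_erase_of_mem hM]
        omega)
      rw [Finset.mem_erase] at hb
      refine ⟨b, hb.2, ?_⟩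
      have hlt : b < P.max' hne := lt_of_le_of_ne (P.le_max' b hb.2) hb.1
      have e : P.filter (fun k => b < k) = insert (P.max' hne) ((P.erase (P.max' hne)).filter (fun k => b < k)) := by
        ext k
        rw [mem_filter, mem_insert, mem_filter, mem_erase]
        constructor
        · rintro ⟨h1, h2⟩
          by_cases h3 : k = P.max' hne
          · exact Or.inl h3
          · exact Or.inr ⟨⟨h3, h1⟩, h2⟩
        · rintro (h1 | ⟨⟨_, h2⟩, h3⟩)
          · rw [h1]
            exact ⟨hM, hlt⟩
          · exact ⟨h2, h3⟩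
      rw [e, Finset.card_insert_of_notMem, hbm]
      · omega
      · rw [mem_filter, mem_erase]
        intro hc
        exact hc.1.1 rfl

/-- the count for one `n' = n + s` and one length `μ`, `λ ≤ μ ≤ Λ` -/
theorem cnt_top {K m : ℕ} {La lam mu de x : ℝ} {n : ℕ} {h : Fin K → ℕ} (hG : H91CH.Gd m La x n h)
    (hhi : ∀ i, (h i : ℝ) ≤ lam / 2 * Real.log x)
    (hsep : ∀ i j, h i < h j → (h i : ℝ) + de * Real.log x ≤ h j)
    {b : ℕ} (hb : b ∈ (univ.image h).filter (fun k => (n + k).Prime))
    (hbm : (((univ.image h).filter (fun k => (n + k).Prime)).filter (fun k => b < k)).card = m)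
    {s : ℕ} (hs1 : b ≤ s) (hs2 : (s : ℝ) < b + de * Real.log x)
    (hs3 : (s : ℝ) + mu * Real.log ((n + s : ℕ) : ℝ) ≤ La * Real.log x)
    (hs4 : lam / 2 * Real.log x ≤ mu * Real.log ((n + s : ℕ) : ℝ)) (hs0 : 0 ≤ mu * Real.log ((n + s : ℕ) : ℝ)) :
    cnt mu (n + s) = m := by
  unfold cnt
  rw [← hbm]
  have hmain : (Ioc (n + s) ⌊((n + s : ℕ) : ℝ) + mu * Real.log ((n + s : ℕ) : ℝ)⌋₊).filter Nat.Prime =
      (((univ.image h).filter (fun k => (n + k).Prime)).filter (fun k => b < k)).image (fun k => n + k) := by
    ext p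
    rw [mem_filter, mem_Ioc, mem_image]
    have hnn : (0 : ℝ) ≤ ((n + s : ℕ) : ℝ) + mu * Real.log ((n + s : ℕ) : ℝ) := by
      have : (0 : ℝ) ≤ ((n + s : ℕ) : ℝ) := Nat.cast_nonneg _
      linarith
    constructor
    · rintro ⟨⟨h1, h2⟩, h3⟩
      rw [Nat.le_floor_iff hnn] at h2
      obtain ⟨k, rfl⟩ : ∃ k, p = n + k := ⟨p - n, by omega⟩
      have hk : s < k := by omega
      have hku : (k : ℝ) ≤ s + mu * Real.log ((n + s : ℕ) : ℝ) := by
        push_cast at h2 ⊢
        linarith
      refine ⟨k, ?_, rfl⟩
      rw [mem_filter, mem_filter]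
      refine ⟨⟨?_, h3⟩, by omega⟩
      by_contra hc
      exact hG.2 k (by omega) (by linarith) hc h3
    · rintro ⟨k, h1, rfl⟩
      rw [mem_filter, mem_filter] at h1
      obtain ⟨⟨h2, h3⟩, h4⟩ := h1
      rw [mem_image] at h2
      obtain ⟨i, -, rfl⟩ := h2
      rw [mem_filter, mem_image] at hb
      obtain ⟨⟨j, -, rfl⟩, -⟩ := hb
      have h5 := hsep j i h4
      have h7 : (s : ℝ) < h i := by linarith
      refine ⟨⟨?_, ?_⟩, h3⟩
      · have : s < h i := by exact_mod_cast h7
        omega
      · rw [Nat.le_floor_iff hnn]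
        have h8 := hhi i
        have : (0 : ℝ) ≤ s := Nat.cast_nonneg s
        push_cast at hs4 ⊢
        linarith
  rw [hmain, card_image_of_injective _ (fun a b hab => by
    simpa using hab)]

end H73EM
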